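import Pool.Agent.Helper11.KS.Sheet
import Pool.Agent.Helper94.NH.ZIG
open MeasureTheory Metric Set Filter Topology Real
open scoped ENNReal NNReal

/-!
Row LNG of project KS: the edges which start at a tripod point are long.
-/

namespace H11ST
namespace KS
open NH

/-- row LNG -/
theorem lng : KS_LNG := by
  intro A S r h τ hτ0 hτ1 hSep v β σ hσ hv hTB
  obtain ⟨u, ε, hT, j, hj⟩ := id hTB
  have hvS : v ∈ S := by
    have := hT.mem (i := 0) (s := 0) le_rfl hT.pos
    simpa using this
  obtain ⟨f1, f2, f3⟩ := frame β σ hσ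
  have hT' := PU.tri_perm hT (Equiv.swap 0 j)
  have hTA : PU.TA S (-ev β) (ev (β + σ * (π / 2))) v :=
    PU.ta_of_neg f1 hT' (by rw [Function.comp_apply, Equiv.swap_apply_left, hj])
  obtain ⟨u', ε', hT2, h0, h1, h2⟩ := hTA
  obtain ⟨ε₀, hε₀, hst⟩ := PU.tri_arm hT2 1
  rw [h1, PU.e2_neg, f2] at hst
  set e := ev (β + σ * (π / 3)) with he
  have hen : ‖e‖ = 1 := norm_ev _
  obtain ⟨s, hs, b1, b2, b3, b4, b5⟩ := ray_unit h hen hvS hv hε₀ hst
  have hκ : 2 * τ / (1 + τ) ≤ 1 := by
    rw [div_le_one (by linarith)]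
    linarith
  have hdist : ‖(v + s • e) - v‖ = s := by
    rw [add_sub_cancel_left, norm_smul, hen, mul_one, Real.norm_eq_abs, abs_of_pos hs]
  have hedge : Edge S v e s := by
    refine ⟨hs, b3, fun s' h0 h1 => ⟨b4 s' h0 h1, ?_⟩⟩
    rcases h1.eq_or_lt with c | c
    · rw [c]; exact b2
    · exact (b1 s' h0 c).le
  refine ⟨s, hedge, ?_, ?_⟩
  · rcases b5 with b5 | ⟨b5, w, ε₂, hw, hw0⟩
    · have h3 : 1 - ‖v‖ ≤ s := by
        have := norm_sub_norm_le (v + s • e) v
        rw [hdist, b5] at this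
        exact this
      calc 2 * τ / (1 + τ) * (1 - ‖v‖) ≤ 1 * (1 - ‖v‖) :=
            mul_le_mul_of_nonneg_right hκ (by linarith)
        _ ≤ s := by linarith
    · have hne : v ≠ v + s • e := by
        intro h3
        rw [← h3, sub_self, norm_zero] at hdist
        exact hs.ne hdist
      have h4 := hSep A S 0 r h.L h.cl v (v + s • e) hne
        (by rw [mem_ball_zero_iff]; exact hv.trans h.r1)
        (by rw [mem_ball_zero_iff]; exact b5.trans h.r1) ⟨u, ε, hT⟩ ⟨w, ε₂, hw⟩
      have h5 : dist v (v + s • e) = s := by rw [dist_comm, dist_eq_norm, hdist]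
      have h6 : dist (midpoint ℝ v (v + s • e)) 0 ≤ ‖v‖ + s / 2 := by
        rw [dist_zero_right]
        have h7 : midpoint ℝ v (v + s • e) = v + (s / 2) • e := by
          have h8 : (2 : ℝ)⁻¹ • v + (2 : ℝ)⁻¹ • v = v := by
            rw [← add_smul]
            norm_num
          rw [midpoint_eq_smul_add, invOf_eq_inv, smul_add, smul_add, smul_smul, ← add_assoc, h8,
            div_eq_inv_mul]
        rw [h7]
        refine (norm_add_le _ _).trans (le_of_eq ?_)
        rw [norm_smul, hen, mul_one, Real.norm_eq_abs, abs_of_pos (by linarith)]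
      rw [h5] at h4
      have h8 : τ * (1 - ‖v‖ - s / 2) ≤ s / 2 := by
        refine le_trans (mul_le_mul_of_nonneg_left ?_ hτ0.le) h4
        have := h.r1
        linarith
      have h9 : 2 * τ * (1 - ‖v‖) ≤ s * (1 + τ) := by linarith
      rw [div_mul_eq_mul_div, div_le_iff₀ (by linarith)]
      exact h9
  · rcases b5 with b5 | ⟨b5, w, ε₂, hw, hw0⟩
    · exact Or.inl b5
    · exact Or.inr ⟨b5, w, ε₂, hw, 0, hw0⟩

end KS
end H11ST
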